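import Mathlib

namespace Pool.Agent.MP_bf2f06_lc

variable {V : Type} [Fintype V] [DecidableEq V]

/-- A deterministic protocol for players on the vertices of `G` holding `n`-bit strings.
`send v x r w` is the string of all bits that player `v`, holding input `x`, has sent to `w` once
it has received the string `r u` from every player `u`; `out v x r` is its verdict, if any.
Bits travel along edges only, and neither a sent bit nor a verdict is ever taken back. -/
structure Protocol (G : SimpleGraph V) (n : ℕ) where
  send : V → (Fin n → Bool) → (V → List Bool) → V → List Bool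
  out : V → (Fin n → Bool) → (V → List Bool) → Option Bool
  send_adj : ∀ v x r w, ¬ G.Adj v w → send v x r w = []
  send_mono : ∀ v x r r', (∀ u, r u <+: r' u) → ∀ w, send v x r w <+: send v x r' w
  out_mono : ∀ v x r r' b, (∀ u, r u <+: r' u) → out v x r = some b → out v x r' = some b

/-- `P.run x t v w`: the bits sent from `v` to `w` in the first `t` rounds on the inputs `x`. -/
def Protocol.run {G : SimpleGraph V} {n : ℕ} (P : Protocol G n) (x : V → Fin n → Bool) :
    ℕ → V → V → List Bool
  | 0 => fun _ _ => []
  | t + 1 => fun v w => P.send v (x v) (fun u => Protocol.run P x t u v) w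

/-- On all inputs the run comes to an end, at most `c` bits are sent in total, and every player
knows whether all inputs are equal. -/
def Protocol.Decides {G : SimpleGraph V} {n : ℕ} (P : Protocol G n) (c : ℕ) : Prop :=
  ∀ x : V → Fin n → Bool, ∃ t, P.run x (t + 1) = P.run x t ∧
    ∑ v, ∑ w, (P.run x t v w).length ≤ c ∧
    ∀ v, ∃ b, P.out v (x v) (fun u => P.run x t u v) = some b ∧ (b = true ↔ ∀ u w, x u = x w)

/-- The communication pattern does not depend on the inputs. -/
def Protocol.Static {G : SimpleGraph V} {n : ℕ} (P : Protocol G n) : Prop :=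
  ∀ x y t v w, (P.run x t v w).length = (P.run y t v w).length

/-- The least worst-case number of bits of a protocol deciding equality, over all protocols
(`static = false`) or over static protocols only (`static = true`). -/
noncomputable def f (G : SimpleGraph V) (static : Bool) (n : ℕ) : ℕ :=
  sInf {c | ∃ P : Protocol G n, (static = true → P.Static) ∧ P.Decides c}

/-- The cuts `(S, Sᶜ)`, given by `S`. -/
abbrev Cut (V : Type) [Fintype V] [DecidableEq V] : Type :=
  {S : Finset V // S.Nonempty ∧ S ≠ Finset.univ}

/-- Fractional packings of cuts. -/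
def IsPacking (G : SimpleGraph V) (g : Cut V → ℝ) : Prop :=
  (∀ S, 0 ≤ g S ∧ g S ≤ 1) ∧
    ∀ u v, G.Adj u v →
      ∑ S ∈ Finset.univ.filter (fun S : Cut V => ¬ (u ∈ S.1 ↔ v ∈ S.1)), g S ≤ 1

/-- The fractional cut packing number. -/
noncomputable def fc (G : SimpleGraph V) : ℝ :=
  sSup {s | ∃ g, IsPacking G g ∧ s = ∑ S, g S}

end Pool.Agent.MP_bf2f06_lc
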